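import Pool.Agent.Y382.DN.Stm3

/-!
# Project DN, job SKST: the theorem of Kovari, Sos and Turan with product neighbourhoods
-/

set_option autoImplicit false

namespace Pool.Agent.Y872.DN

open Finset Pool.Agent.Y382.RK

theorem tr_mul (a b ρ : ℕ) : a * b ≤ (a - ρ) * (b - ρ) + ρ * (a + b) := by
  rcases le_or_gt ρ a with ha | ha
  · rcases le_or_gt ρ b with hb | hb
    · obtain ⟨a', rfl⟩ := Nat.exists_eq_add_of_le ha
      obtain ⟨b', rfl⟩ := Nat.exists_eq_add_of_le hb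
      rw [Nat.add_sub_cancel_left, Nat.add_sub_cancel_left]
      nlinarith
    · have h1 : a * b ≤ a * ρ := Nat.mul_le_mul_left a hb.le
      have h2 := Nat.zero_le ((a - ρ) * (b - ρ))
      nlinarith [Nat.zero_le (ρ * b)]
  · have h1 : a * b ≤ ρ * b := Nat.mul_le_mul_right b ha.le
    have h2 := Nat.zero_le ((a - ρ) * (b - ρ))
    nlinarith [Nat.zero_le (ρ * a)]

theorem count {X Y1 Y2 : Type} [Fintype X] [Fintype Y1] [Fintype Y2] (Φ : X → Finset Y1)
    (Ψ : X → Finset Y2) (r ρ : ℕ) (hr : r ≤ ρ ^ 2)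
    (h : ∀ (x : Fin r → X) (y : Fin r → Y1 × Y2), Function.Injective x → Function.Injective y →
      ∃ i j, ¬ ((y j).1 ∈ Φ (x i) ∧ (y j).2 ∈ Ψ (x i))) :
    ∑ x, (Φ x).card.choose ρ * (Ψ x).card.choose ρ ≤
      r * ((Fintype.card Y1).choose ρ * (Fintype.card Y2).choose ρ) := by
  classical
  have h1 : ∀ x, (Φ x).card.choose ρ * (Ψ x).card.choose ρ =
      ∑ p ∈ powersetCard ρ (univ : Finset Y1) ×ˢ powersetCard ρ (univ : Finset Y2),
        if p.1 ⊆ Φ x ∧ p.2 ⊆ Ψ x then 1 else 0 := by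
    intro x
    rw [← card_filter, ← card_powersetCard, ← card_powersetCard, ← card_product]
    congr 1
    ext p
    rw [mem_product, mem_powersetCard, mem_powersetCard, mem_filter, mem_product,
      mem_powersetCard, mem_powersetCard]
    constructor
    · rintro ⟨⟨a1, a2⟩, a3, a4⟩
      exact ⟨⟨⟨subset_univ _, a2⟩, subset_univ _, a4⟩, a1, a3⟩
    · rintro ⟨⟨⟨_, a2⟩, _, a4⟩, a1, a3⟩
      exact ⟨⟨a1, a2⟩, a3, a4⟩
  rw [sum_congr rfl (fun x _ => h1 x), sum_comm]
  have h2 : ∀ p ∈ powersetCard ρ (univ : Finset Y1) ×ˢ powersetCard ρ (univ : Finset Y2),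
      (∑ x : X, if p.1 ⊆ Φ x ∧ p.2 ⊆ Ψ x then 1 else 0) ≤ r := by
    intro p hp
    rw [mem_product, mem_powersetCard, mem_powersetCard] at hp
    rw [← card_filter]
    by_contra hc
    push Not at hc
    obtain ⟨e⟩ : Nonempty (Fin r ↪ {x // x ∈ univ.filter (fun x => p.1 ⊆ Φ x ∧ p.2 ⊆ Ψ x)}) := by
      apply Function.Embedding.nonempty_of_card_le
      rw [Fintype.card_fin, Fintype.card_coe]
      exact hc.le
    obtain ⟨e'⟩ : Nonempty (Fin r ↪ {y // y ∈ p.1 ×ˢ p.2}) := by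
      apply Function.Embedding.nonempty_of_card_le
      rw [Fintype.card_fin, Fintype.card_coe, card_product, hp.1.2, hp.2.2]
      rw [pow_two] at hr
      exact hr
    obtain ⟨i, j, hij⟩ := h (fun i => (e i : X)) (fun j => (e' j : Y1 × Y2))
      (fun i j hh => e.injective (Subtype.ext hh)) (fun i j hh => e'.injective (Subtype.ext hh))
    apply hij
    have a1 := (mem_filter.1 (e i).2).2
    have a2 := mem_product.1 (e' j).2
    exact ⟨a1.1 a2.1, a1.2 a2.2⟩
  refine (sum_le_sum h2).trans ?_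
  rw [sum_const, card_product, card_powersetCard, card_powersetCard, card_univ, card_univ,
    smul_eq_mul, mul_comm]

theorem count2 {X Y1 Y2 : Type} [Fintype X] [Fintype Y1] [Fintype Y2] (Φ : X → Finset Y1)
    (Ψ : X → Finset Y2) (r ρ : ℕ) (hr : r ≤ ρ ^ 2)
    (h : ∀ (x : Fin r → X) (y : Fin r → Y1 × Y2), Function.Injective x → Function.Injective y →
      ∃ i j, ¬ ((y j).1 ∈ Φ (x i) ∧ (y j).2 ∈ Ψ (x i))) :
    ∑ x, (((Φ x).card - ρ) * ((Ψ x).card - ρ)) ^ ρ ≤
      r * (Fintype.card Y1 * Fintype.card Y2) ^ ρ := by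
  have h1 := Nat.mul_le_mul_left (ρ.factorial * ρ.factorial) (count Φ Ψ r ρ hr h)
  rw [mul_sum] at h1
  have h2 : ∀ n : ℕ, (n - ρ) ^ ρ ≤ ρ.factorial * n.choose ρ := by
    intro n
    rw [← Nat.descFactorial_eq_factorial_mul_choose]
    refine le_trans ?_ (Nat.pow_sub_le_descFactorial n ρ)
    exact Nat.pow_le_pow_left (by omega) ρ
  have h3 : ∀ n : ℕ, ρ.factorial * n.choose ρ ≤ n ^ ρ := by
    intro n
    rw [← Nat.descFactorial_eq_factorial_mul_choose]
    exact Nat.descFactorial_le_pow n ρ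
  calc ∑ x, (((Φ x).card - ρ) * ((Ψ x).card - ρ)) ^ ρ
      ≤ ∑ x, ρ.factorial * ρ.factorial * ((Φ x).card.choose ρ * (Ψ x).card.choose ρ) := by
        refine sum_le_sum fun x _ => ?_
        rw [mul_pow]
        calc _ ≤ (ρ.factorial * (Φ x).card.choose ρ) * (ρ.factorial * (Ψ x).card.choose ρ) :=
              Nat.mul_le_mul (h2 _) (h2 _)
          _ = _ := by ring
    _ ≤ _ := h1
    _ = r * ((ρ.factorial * (Fintype.card Y1).choose ρ) *
          (ρ.factorial * (Fintype.card Y2).choose ρ)) := by ring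
    _ ≤ _ := by
        rw [mul_pow]
        exact Nat.mul_le_mul_left r (Nat.mul_le_mul (h3 _) (h3 _))

theorem t_SKST : S_SKST := by
  intro X Y1 Y2 _ _ _ Φ Ψ r ρ hρ hr1 hr h
  have hA : (0 : ℝ) ≤ Fintype.card X := Nat.cast_nonneg _
  have hB : (0 : ℝ) ≤ (Fintype.card Y1 * Fintype.card Y2 : ℝ) := by positivity
  have h0 := count2 Φ Ψ r ρ hr h
  obtain ⟨f, hf⟩ : ∃ f : X → ℝ, f = fun x => ((((Φ x).card - ρ) * ((Ψ x).card - ρ) : ℕ) : ℝ) :=
    ⟨_, rfl⟩
  have hf0 : ∀ x, 0 ≤ f x := by intro x; rw [hf]; positivity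
  have hfp : ∑ x, f x ^ ρ ≤ r * (Fintype.card Y1 * Fintype.card Y2 : ℝ) ^ ρ := by
    rw [hf]
    have := (Nat.cast_le (α := ℝ)).2 h0
    push_cast at this ⊢
    exact this
  have hmain : ∑ x, f x ≤ r * (Fintype.card X : ℝ) ^ (1 - 1 / (ρ : ℝ)) *
      (Fintype.card Y1 * Fintype.card Y2) := by
    obtain ⟨n, rfl⟩ : ∃ n, ρ = n + 1 := ⟨ρ - 1, by omega⟩
    have hR : (0 : ℝ) ≤ r * (Fintype.card X : ℝ) ^ (1 - 1 / (((n + 1 : ℕ)) : ℝ)) *
      (Fintype.card Y1 * Fintype.card Y2) := by positivity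
    refine le_of_pow_le_pow_left₀ (by omega : n + 1 ≠ 0) hR ?_
    have e1 : ((Fintype.card X : ℝ) ^ (1 - 1 / (((n + 1 : ℕ)) : ℝ))) ^ (n + 1) =
        (Fintype.card X : ℝ) ^ n := by
      rw [← Real.rpow_natCast, ← Real.rpow_mul hA, ← Real.rpow_natCast]
      congr 1
      have : (((n + 1 : ℕ)) : ℝ) ≠ 0 := by positivity
      field_simp
      push_cast
      ring
    rw [mul_pow, mul_pow, e1]
    have e2 : (∑ x, f x) ^ (n + 1) ≤ (Fintype.card X : ℝ) ^ n * ∑ x, f x ^ (n + 1) := by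
      have e0 := pow_sum_div_card_le_sum_pow (s := (univ : Finset X)) (f := f)
        (fun x _ => hf0 x) n
      rw [card_univ] at e0
      rcases Nat.eq_zero_or_pos (Fintype.card X) with hX | hX
      · have : IsEmpty X := Fintype.card_eq_zero_iff.1 hX
        rw [univ_eq_empty, sum_empty, sum_empty, mul_zero, zero_pow (Nat.succ_ne_zero n)]
      · have hX' : (0 : ℝ) < (Fintype.card X : ℝ) ^ n := by positivity
        rw [div_le_iff₀ hX'] at e0
        linarith
    have e3 : (r : ℝ) ≤ (r : ℝ) ^ (n + 1) := by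
      have : (1 : ℝ) ≤ r := by exact_mod_cast hr1
      exact le_self_pow₀ this (Nat.succ_ne_zero n)
    refine e2.trans ?_
    have e4 : (0 : ℝ) ≤ (Fintype.card X : ℝ) ^ n := by positivity
    calc _ ≤ (Fintype.card X : ℝ) ^ n * (r * (Fintype.card Y1 * Fintype.card Y2 : ℝ) ^ (n + 1)) :=
          mul_le_mul_of_nonneg_left hfp e4
      _ ≤ (Fintype.card X : ℝ) ^ n *
          ((r : ℝ) ^ (n + 1) * (Fintype.card Y1 * Fintype.card Y2 : ℝ) ^ (n + 1)) := by
          gcongr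
      _ = _ := by ring
  have hnat : ∑ x, (Φ x).card * (Ψ x).card ≤
      ∑ x, ((Φ x).card - ρ) * ((Ψ x).card - ρ) +
        ρ * Fintype.card X * (Fintype.card Y1 + Fintype.card Y2) := by
    calc _ ≤ ∑ x, (((Φ x).card - ρ) * ((Ψ x).card - ρ) +
          ρ * (Fintype.card Y1 + Fintype.card Y2)) := by
          refine sum_le_sum fun x _ => ?_
          refine (tr_mul _ _ ρ).trans ?_
          have e1 : (Φ x).card ≤ Fintype.card Y1 := card_le_univ _
          have e2 : (Ψ x).card ≤ Fintype.card Y2 := card_le_univ _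
          exact Nat.add_le_add_left (Nat.mul_le_mul_left ρ (Nat.add_le_add e1 e2)) _
      _ = _ := by
          rw [sum_add_distrib, sum_const, card_univ, smul_eq_mul]
          ring
  have hreal := (Nat.cast_le (α := ℝ)).2 hnat
  refine hreal.trans ?_
  rw [Nat.cast_add, Nat.cast_sum]
  have e5 : ∑ x, ((((Φ x).card - ρ) * ((Ψ x).card - ρ) : ℕ) : ℝ) = ∑ x, f x := by rw [hf]
  rw [e5]
  push_cast
  linarith

end Pool.Agent.Y872.DN
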